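import Pool.Agent.K1H44.AL.Plan

/-!
Piece BLK of project AL: rows, block sums and products.
-/

set_option autoImplicit false

namespace Pool.Agent.K1H31.AL

open Pool.Agent.K1H44.AL Pool.Agent.R751.Flower

lemma lst_nil (g : ℕ → ℂ) : Lst 0 g [] := by
  refine ⟨rfl, fun k h => ?_⟩
  exact absurd h (Nat.not_lt_zero k)

lemma lst_cons {K : ℕ} {g : ℕ → ℂ} {x : CB} {l : List CB} :
    Lst (K + 1) g (x :: l) ↔ In (g 0) x ∧ Lst K (fun k => g (k + 1)) l := by
  constructor
  · rintro ⟨h1, h2⟩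
    refine ⟨h2 0 (Nat.succ_pos _), ?_, fun k h => ?_⟩
    · rw [List.length_cons] at h1
      exact Nat.succ_injective h1
    · exact h2 (k + 1) (Nat.succ_lt_succ h)
  · rintro ⟨h1, h2, h3⟩
    refine ⟨by rw [List.length_cons, h2], fun k h => ?_⟩
    cases k with
    | zero => exact h1
    | succ k => exact h3 k (Nat.lt_of_succ_lt_succ h)

lemma lst_congr {K : ℕ} {g h : ℕ → ℂ} {l : List CB} (hl : Lst K g l) (e : ∀ k, g k = h k) :
    Lst K h l := by
  have : g = h := funext e
  rwa [← this]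

/-- the third item -/
lemma lst_wk (hB : S_BALL) : ∀ (l l' : List CB) (K : ℕ) (g : ℕ → ℂ), Lst K g l →
    wkL l l' = true → Lst K g l'
  | [], [], _, _ => fun h _ => h
  | [], _ :: _, _, _ => fun _ h => by simp [wkL] at h
  | _ :: _, [], _, _ => fun _ h => by simp [wkL] at h
  | u :: us, v :: vs, K, g => fun h h' => by
    obtain ⟨-, -, -, -, -, -, -, hwk⟩ := id hB
    rw [wkL, Bool.and_eq_true] at h'
    cases K with
    | zero =>
      have := h.1
      simp at this
    | succ K =>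
      rw [lst_cons] at h ⊢
      exact ⟨hwk _ _ _ h.1 h'.1, lst_wk hB us vs K _ h.2 h'.2⟩

lemma lst_row (hB : S_BALL) : ∀ (K : ℕ) (x y : ℝ) (u b : CB), Good x u → Good y b →
    Lst K (fun k => ex (x + k * y)) (row K u b)
  | 0, _, _, _, _ => fun _ _ => lst_nil _
  | K + 1, x, y, u, b => fun hu hb => by
    rw [row, hB.1, lst_cons]
    constructor
    · show In (ex (x + ((0 : ℕ) : ℝ) * y)) u
      rw [Nat.cast_zero, zero_mul, add_zero]
      exact hu
    · refine lst_congr (lst_row hB K (x + y) y _ b (hu.mul hb) hb) fun k => ?_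
      show ex (x + y + (k : ℝ) * y) = ex (x + ((k + 1 : ℕ) : ℝ) * y)
      congr 1
      push_cast
      ring

lemma lst_rowOf (hB : S_BALL) (hA : S_BASE) (K : ℕ) (d : Dt) (hd : okD d = true) :
    Lst K (fun k => uu d.n k) (rowOf K d) := by
  rw [rowOf, hB.1, hB.1]
  have h1 : Good (-(hl d.n)) (base d.m) := hA d hd
  refine lst_congr (lst_row hB K _ _ _ _ h1 (h1.mul h1)) fun k => ?_
  show ex _ = ex _
  congr 1
  ring

lemma lst_zwS (hB : S_BALL) (n : ℕ) (hn : 0 < n) : ∀ (ss us : List CB) (K : ℕ) (g h : ℕ → ℂ),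
    Lst K g ss → Lst K h us → Lst K (fun k => g k + h k / n) (zwS n ss us)
  | [], _, K, g, h => fun h1 _ => by
    have : K = 0 := h1.1.symm
    subst this
    rw [zwS]
    · exact lst_nil _
    · intros
      simp_all
  | _ :: _, [], K, g, h => fun _ h2 => by
    have : K = 0 := h2.1.symm
    subst this
    rw [zwS]
    · exact lst_nil _
    · intros
      simp_all
  | s :: ss, u :: us, K, g, h => fun h1 h2 => by
    obtain ⟨hfB, hadd, -, -, hdiv, -⟩ := id hB
    cases K with
    | zero =>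
      have := h1.1
      simp at this
    | succ K =>
      rw [lst_cons] at h1 h2
      rw [zwS, hfB, lst_cons]
      exact ⟨hadd _ _ _ _ h1.1 (hdiv _ _ _ hn h2.1), lst_zwS hB n hn ss us K _ _ h1.2 h2.2⟩

lemma in_one : In 1 ⟨PP, 0, 0⟩ := by
  unfold In
  simp

lemma in_fac (hB : S_BALL) (p : ℕ) (hp : 0 < p) (z : ℂ) (u : CB) (h : In z u) :
    In (1 - 3 * (z / p) ^ 2 + 2 * (z / p) ^ 3) (fac p u) := by
  obtain ⟨hfB, hadd, hsub, hsm, hdiv, hgm, -⟩ := hB
  rw [fac, hfB, hfB, hfB]
  have h1 := hdiv p z u hp h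
  have h2 := hgm _ _ _ _ h1 h1
  have h3 := hgm _ _ _ _ h2 h1
  have h4 := hadd _ _ _ _ (hsub _ _ _ _ in_one (hsm 3 _ _ h2)) (hsm 2 _ _ h3)
  have e : (1 - 3 * (z / p) ^ 2 + 2 * (z / p) ^ 3 : ℂ) =
      1 - ((3 : ℕ) : ℂ) * (z / p * (z / p)) + ((2 : ℕ) : ℂ) * (z / p * (z / p) * (z / p)) := by
    push_cast
    ring
  rw [e]
  exact h4

lemma lst_zwP (hB : S_BALL) (n : ℕ) (hn : 0 < n) : ∀ (ss us : List CB) (K : ℕ) (g h : ℕ → ℂ),
    Lst K g ss → Lst K h us →
    Lst K (fun k => g k * (1 - 3 * (h k / n) ^ 2 + 2 * (h k / n) ^ 3)) (zwP n ss us)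
  | [], _, K, g, h => fun h1 _ => by
    have : K = 0 := h1.1.symm
    subst this
    rw [zwP]
    · exact lst_nil _
    · intros
      simp_all
  | _ :: _, [], K, g, h => fun _ h2 => by
    have : K = 0 := h2.1.symm
    subst this
    rw [zwP]
    · exact lst_nil _
    · intros
      simp_all
  | s :: ss, u :: us, K, g, h => fun h1 h2 => by
    obtain ⟨hfB, -, -, -, -, hgm, -⟩ := id hB
    cases K with
    | zero =>
      have := h1.1
      simp at this
    | succ K =>
      rw [lst_cons] at h1 h2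
      rw [zwP, hfB, hfB, lst_cons]
      exact ⟨hgm _ _ _ _ h1.1 (in_fac hB n hn _ _ h2.1), lst_zwP hB n hn ss us K _ _ h1.2 h2.2⟩

lemma okD_pos {d : Dt} (h : okD d = true) : 0 < d.n := by
  unfold okD at h
  rw [Bool.and_eq_true] at h
  exact Nat.le_of_ble_eq_true h.1

/-- **piece BLK** -/
theorem t_BLK : S_BLK := by
  intro hB hA
  refine ⟨?_, ?_, fun K g l l' h h' => lst_wk hB l l' K g h h'⟩
  · intro K g l
    induction l generalizing g with
    | nil =>
      intro acc _ h
      rw [blkS]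
      exact lst_congr h fun k => by simp
    | cons d l ih =>
      intro acc hd h
      rw [blkS]
      have h1 := hd d List.mem_cons_self
      have h2 := lst_zwS hB d.n (okD_pos h1) _ _ K _ _ h (lst_rowOf hB hA K d h1)
      refine lst_congr (ih _ _ (fun x hx => hd x (List.mem_cons_of_mem _ hx)) h2) fun k => ?_
      rw [List.map_cons, List.sum_cons, add_assoc]
  · intro K g l
    induction l generalizing g with
    | nil =>
      intro acc _ h
      rw [blkP]
      exact lst_congr h fun k => by simp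
    | cons d l ih =>
      intro acc hd h
      rw [blkP]
      have h1 := hd d List.mem_cons_self
      have h2 := lst_zwP hB d.n (okD_pos h1) _ _ K _ _ h (lst_rowOf hB hA K d h1)
      refine lst_congr (ih _ _ (fun x hx => hd x (List.mem_cons_of_mem _ hx)) h2) fun k => ?_
      rw [List.map_cons, List.prod_cons, ← mul_assoc]
      rfl

end Pool.Agent.K1H31.AL
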